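import Pool.Agent.MP_13e7a1_an.H82.Spec

/-!
Cauchy-Pompeiu formula for the real Cauchy transform.
-/

open scoped ContDiff Topology
open Set Metric MeasureTheory Filter

noncomputable section

namespace Pool.Agent.MP_13e7a1_an.H54

open Pool.Agent.MP_13e7a1_an.H82

variable {F : Type} [NormedAddCommGroup F] [NormedSpace ℝ F]

/-- The unit vector of angle `θ`. -/
def ee (θ : ℝ) : ℂ := Real.cos θ + Real.sin θ * Complex.I

theorem ee_cont : Continuous ee := by
  unfold ee
  fun_prop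

theorem norm_ee (θ : ℝ) : ‖ee θ‖ = 1 := by
  unfold ee
  rw [Complex.ofReal_cos, Complex.ofReal_sin, ← Complex.exp_mul_I]
  exact Complex.norm_exp_ofReal_mul_I θ

theorem ee_deriv (θ : ℝ) : HasDerivAt ee (Complex.I * ee θ) θ := by
  have h1 := (Real.hasDerivAt_cos θ).ofReal_comp
  have h2 := ((Real.hasDerivAt_sin θ).ofReal_comp).mul_const Complex.I
  have h3 := h1.add h2
  have e : Complex.I * ee θ = ((-Real.sin θ : ℝ) : ℂ) + (Real.cos θ : ℂ) * Complex.I := by
    unfold ee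
    push_cast
    linear_combination (Complex.sin θ) * Complex.I_mul_I
  rw [e]
  exact h3

theorem ee_pi : ee Real.pi = ee (-Real.pi) := by
  simp [ee]

theorem exists_rad {G : Type} [Zero G] [TopologicalSpace G] (D : ℂ → G) (hc : HasCompactSupport D)
    (z : ℂ) : ∃ R : ℝ, 0 < R ∧ ∀ (r θ : ℝ), R ≤ r → D (z - r * ee θ) = 0 := by
  obtain ⟨ρ, hρ⟩ := hc.isCompact.isBounded.subset_closedBall (0 : ℂ)
  refine ⟨|ρ| + ‖z‖ + 1, by positivity, fun r θ hr => ?_⟩
  apply image_eq_zero_of_notMem_tsupport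
  intro hm
  have h1 := hρ hm
  rw [mem_closedBall_zero_iff] at h1
  have hr0 : 0 ≤ r := le_trans (by positivity) hr
  have h2 : ‖(r : ℂ) * ee θ‖ = r := by
    rw [norm_mul, norm_ee, mul_one, Complex.norm_real, Real.norm_eq_abs, abs_of_nonneg hr0]
  have h3 : ‖(r : ℂ) * ee θ‖ ≤ ‖z‖ + ‖z - r * ee θ‖ := by
    have : (r : ℂ) * ee θ = z - (z - r * ee θ) := by ring
    calc ‖(r : ℂ) * ee θ‖ = ‖z - (z - r * ee θ)‖ := by rw [← this]
      _ ≤ _ := norm_sub_le _ _
  have := le_abs_self ρ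
  linarith

theorem polar_integrable (D : ℂ → ℂ →L[ℝ] F) (hD : Continuous D) (hc : HasCompactSupport D)
    (z w : ℂ) :
    IntegrableOn (fun p : ℝ × ℝ => D (z - p.1 * ee p.2) (w * ee p.2))
      (Ioi 0 ×ˢ Ioo (-Real.pi) Real.pi) (volume.prod volume) := by
  obtain ⟨R, hR, hz⟩ := exists_rad D hc z
  have hcont : Continuous (fun p : ℝ × ℝ => D (z - p.1 * ee p.2) (w * ee p.2)) := by
    have := ee_cont
    fun_prop
  have hK : IsCompact (Icc (0 : ℝ) R ×ˢ Icc (-Real.pi) Real.pi) := isCompact_Icc.prod isCompact_Icc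
  have h1 : IntegrableOn (fun p : ℝ × ℝ => D (z - p.1 * ee p.2) (w * ee p.2))
      (Icc (0 : ℝ) R ×ˢ Icc (-Real.pi) Real.pi) (volume.prod volume) :=
    hcont.continuousOn.integrableOn_compact hK
  refine h1.of_forall_sdiff_eq_zero (measurableSet_Ioi.prod measurableSet_Ioo) ?_
  rintro ⟨r, θ⟩ ⟨⟨hr, hθ⟩, hn⟩
  have hr' : R ≤ r := by
    by_contra hlt
    exact hn ⟨⟨le_of_lt hr, (not_le.1 hlt).le⟩, ⟨hθ.1.le, hθ.2.le⟩⟩
  simp only [hz r θ hr', zero_apply]

variable [CompleteSpace F]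

theorem polar_rad (g : ℂ → F) (hg : ContDiff ℝ ∞ g) (hc : HasCompactSupport g) (z : ℂ) :
    ∫ p in Ioi (0 : ℝ) ×ˢ Ioo (-Real.pi) Real.pi,
      fderiv ℝ g (z - p.1 * ee p.2) (1 * ee p.2) ∂(volume.prod volume) = (2 * Real.pi) • g z := by
  have hD : Continuous (fderiv ℝ g) := hg.continuous_fderiv (by simp)
  have hi := polar_integrable (fderiv ℝ g) hD (hc.fderiv ℝ) z 1
  have hi' := hi
  rw [IntegrableOn, ← Measure.prod_restrict] at hi'
  rw [← Measure.prod_restrict, integral_prod_symm _ hi']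
  obtain ⟨R, hR, hz⟩ := exists_rad g hc z
  obtain ⟨R', hR', hz'⟩ := exists_rad (fderiv ℝ g) (hc.fderiv ℝ) z
  have key : ∀ θ : ℝ, ∫ r in Ioi (0 : ℝ), fderiv ℝ g (z - r * ee θ) (1 * ee θ) = g z := by
    intro θ
    have hder : ∀ r ∈ Ici (0 : ℝ), HasDerivAt (fun r : ℝ => -g (z - r * ee θ))
        (fderiv ℝ g (z - r * ee θ) (1 * ee θ)) r := by
      intro r _
      have h1 : HasDerivAt (fun r : ℝ => z - r * ee θ) (-(1 * ee θ)) r := by
        have := (((hasDerivAt_id r).ofReal_comp).mul_const (ee θ)).const_sub z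
        simpa using this
      have h2 := ((hg.differentiable (by simp)) (z - r * ee θ)).hasFDerivAt.comp_hasDerivAt r h1
      have h3 := h2.neg
      rw [map_neg, neg_neg] at h3
      exact h3
    have hint : IntegrableOn (fun r : ℝ => fderiv ℝ g (z - r * ee θ) (1 * ee θ)) (Ioi 0) := by
      have hcont : Continuous (fun r : ℝ => fderiv ℝ g (z - r * ee θ) (1 * ee θ)) := by
        fun_prop
      have h1 : IntegrableOn (fun r : ℝ => fderiv ℝ g (z - r * ee θ) (1 * ee θ)) (Icc 0 R') :=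
        hcont.continuousOn.integrableOn_compact isCompact_Icc
      refine h1.of_forall_sdiff_eq_zero measurableSet_Ioi ?_
      rintro r ⟨hr, hn⟩
      have hr' : R' ≤ r := by
        by_contra hlt
        exact hn ⟨le_of_lt hr, (not_le.1 hlt).le⟩
      simp only [hz' r θ hr', zero_apply]
    have hlim : Tendsto (fun r : ℝ => -g (z - r * ee θ)) atTop (𝓝 0) := by
      apply tendsto_const_nhds.congr'
      filter_upwards [eventually_ge_atTop R] with r hr
      rw [hz r θ hr, neg_zero]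
    rw [integral_Ioi_of_hasDerivAt_of_tendsto' hder hint hlim]
    simp
  simp only [key]
  rw [setIntegral_const, Real.volume_real_Ioo_of_le (by linarith [Real.pi_pos])]
  congr 1
  ring

theorem polar_ang (g : ℂ → F) (hg : ContDiff ℝ ∞ g) (hc : HasCompactSupport g) (z : ℂ) :
    ∫ p in Ioi (0 : ℝ) ×ˢ Ioo (-Real.pi) Real.pi,
      fderiv ℝ g (z - p.1 * ee p.2) (Complex.I * ee p.2) ∂(volume.prod volume) = 0 := by
  have hD : Continuous (fderiv ℝ g) := hg.continuous_fderiv (by simp)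
  have hi := polar_integrable (fderiv ℝ g) hD (hc.fderiv ℝ) z Complex.I
  rw [setIntegral_prod _ hi]
  apply setIntegral_eq_zero_of_forall_eq_zero
  intro r hr
  have hr0 : (r : ℝ) ≠ 0 := ne_of_gt hr
  have hder : ∀ θ ∈ uIcc (-Real.pi) Real.pi, HasDerivAt (fun θ : ℝ => -(r⁻¹ • g (z - r * ee θ)))
      (fderiv ℝ g (z - r * ee θ) (Complex.I * ee θ)) θ := by
    intro θ _
    have h1 : HasDerivAt (fun θ : ℝ => z - r * ee θ) (-(r • (Complex.I * ee θ))) θ := by
      have := ((ee_deriv θ).const_mul (r : ℂ)).const_sub z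
      simpa using this
    have h2 := ((hg.differentiable (by simp)) (z - r * ee θ)).hasFDerivAt.comp_hasDerivAt θ h1
    have h3 := (h2.const_smul r⁻¹).neg
    rw [map_neg, map_smul, smul_neg, neg_neg, smul_smul, inv_mul_cancel₀ hr0, one_smul] at h3
    exact h3
  have hcont : Continuous (fun θ : ℝ => fderiv ℝ g (z - r * ee θ) (Complex.I * ee θ)) := by
    have := ee_cont
    fun_prop
  have h := intervalIntegral.integral_eq_sub_of_hasDerivAt hder (hcont.intervalIntegrable _ _)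
  rw [intervalIntegral.integral_of_le (by linarith [Real.pi_pos]), integral_Ioc_eq_integral_Ioo,
    ee_pi, sub_self] at h
  exact h

theorem k1_polar (r θ : ℝ) (hr : 0 < r) :
    r * k1 (r * ee θ) = (2 * Real.pi)⁻¹ * Real.cos θ := by
  have h2 : ‖(r : ℂ) * ee θ‖ = r := by
    rw [norm_mul, norm_ee, mul_one, Complex.norm_real, Real.norm_eq_abs, abs_of_pos hr]
  have h3 : ((r : ℂ) * ee θ).re = r * Real.cos θ := by
    simp [ee, Complex.cos_ofReal_re]
  unfold k1
  rw [h2, h3]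
  have := Real.pi_pos
  field_simp

theorem k2_polar (r θ : ℝ) (hr : 0 < r) :
    r * k2 (r * ee θ) = (2 * Real.pi)⁻¹ * Real.sin θ := by
  have h2 : ‖(r : ℂ) * ee θ‖ = r := by
    rw [norm_mul, norm_ee, mul_one, Complex.norm_real, Real.norm_eq_abs, abs_of_pos hr]
  have h3 : ((r : ℂ) * ee θ).im = r * Real.sin θ := by
    simp [ee, Complex.sin_ofReal_re]
  unfold k2
  rw [h2, h3]
  have := Real.pi_pos
  field_simp

theorem pomp (A : F →L[ℝ] F) (hA : ∀ v, A (A v) = -v) (g : ℂ → F) (hg : ContDiff ℝ ∞ g)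
    (hc : HasCompactSupport g) (z : ℂ) : cT A (dbar A g) z = g z := by
  have hD : Continuous (fderiv ℝ g) := hg.continuous_fderiv (by simp)
  have hi1 := polar_integrable (fderiv ℝ g) hD (hc.fderiv ℝ) z 1
  have hi2 := polar_integrable (fderiv ℝ g) hD (hc.fderiv ℝ) z Complex.I
  unfold cT
  rw [← Complex.integral_comp_polarCoord_symm]
  have hT : polarCoord.target = Ioi (0 : ℝ) ×ˢ Ioo (-Real.pi) Real.pi := rfl
  rw [hT, Measure.volume_eq_prod]
  have hcongr : ∀ p ∈ Ioi (0 : ℝ) ×ˢ Ioo (-Real.pi) Real.pi,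
      p.1 • (k1 (Complex.polarCoord.symm p) • dbar A g (z - Complex.polarCoord.symm p) -
        k2 (Complex.polarCoord.symm p) • A (dbar A g (z - Complex.polarCoord.symm p))) =
      (2 * Real.pi)⁻¹ • (fderiv ℝ g (z - p.1 * ee p.2) (1 * ee p.2) +
        A (fderiv ℝ g (z - p.1 * ee p.2) (Complex.I * ee p.2))) := by
    rintro ⟨r, θ⟩ ⟨hr, -⟩
    have hs : Complex.polarCoord.symm (r, θ) = r * ee θ := Complex.polarCoord_symm_apply _
    have e1 : (1 : ℂ) * ee θ = Real.cos θ • (1 : ℂ) + Real.sin θ • Complex.I := by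
      simp [ee]
    have e2 : Complex.I * ee θ = Real.cos θ • Complex.I - Real.sin θ • (1 : ℂ) := by
      simp only [ee, Complex.real_smul]
      linear_combination (Real.sin θ : ℂ) * Complex.I_mul_I
    simp only [hs]
    rw [smul_sub, smul_smul, smul_smul, k1_polar r θ hr, k2_polar r θ hr, e1, e2]
    unfold dbar
    simp only [map_add, map_sub, map_smul, hA]
    module
  rw [setIntegral_congr_fun (measurableSet_Ioi.prod measurableSet_Ioo) hcongr, integral_smul,
    integral_add hi1 (A.integrable_comp hi2), A.integral_comp_comm hi2, polar_rad g hg hc z,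
    polar_ang g hg hc z, map_zero, add_zero, smul_smul, inv_mul_cancel₀ (by positivity), one_smul]

omit [CompleteSpace F] in
theorem dbar_smooth (A : F →L[ℝ] F) (g : ℂ → F) (hg : ContDiff ℝ ∞ g) :
    ContDiff ℝ ∞ (dbar A g) := by
  have hD : ContDiff ℝ ∞ (fderiv ℝ g) := hg.fderiv_right (by simp)
  unfold dbar
  exact (hD.clm_apply contDiff_const).add (A.contDiff.comp (hD.clm_apply contDiff_const))

theorem solve (h : SCauA) [FiniteDimensional ℝ F] (A : F →L[ℝ] F) (hA : ∀ v, A (A v) = -v)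
    (g : ℂ → F) (hg : ContDiff ℝ ∞ g) (hc : HasCompactSupport g) (z : ℂ) :
    dbar A (cT A g) z = g z := by
  have hD : Continuous (fderiv ℝ g) := hg.continuous_fderiv (by simp)
  have hcs : ∀ v : ℂ, HasCompactSupport (fun ζ => fderiv ℝ g ζ v) := fun v =>
    (hc.fderiv ℝ).comp_left (g := fun L : ℂ →L[ℝ] F => L v) rfl
  have hi1 := h.integ F A (fun ζ => fderiv ℝ g ζ 1) (by fun_prop) (hcs 1) z
  have hi2 := h.integ F A (fun ζ => fderiv ℝ g ζ Complex.I) (by fun_prop) (hcs Complex.I) z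
  rw [← pomp A hA g hg hc z]
  unfold dbar
  rw [(h.smooth F A g hg hc).2 z 1, (h.smooth F A g hg hc).2 z Complex.I]
  unfold cT
  rw [← A.integral_comp_comm hi2, ← integral_add hi1 (A.integrable_comp hi2)]
  congr 1
  ext ζ
  simp only [map_add, map_sub, map_smul, smul_add]
  abel

theorem liouville (h : SCauA) [FiniteDimensional ℝ F] (A : F →L[ℝ] F) (hA : ∀ v, A (A v) = -v)
    (u : ℂ → F) (hu : ContDiff ℝ ∞ u) (hlim : Tendsto u (cocompact ℂ) (𝓝 0))
    (h0 : ∀ z, dbar A u z = 0) (z : ℂ) : u z = 0 := by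
  obtain ⟨C, hC0, hC⟩ := h.bound F A 3
  let χ : ContDiffBump (0 : ℂ) := ⟨1, 2, by norm_num, by norm_num⟩
  have hχ : ContDiff ℝ ∞ (χ : ℂ → ℝ) := χ.contDiff
  have hχc : HasCompactSupport (χ : ℂ → ℝ) := χ.hasCompactSupport
  have hDχ : Continuous (fderiv ℝ (χ : ℂ → ℝ)) := hχ.continuous_fderiv (by simp)
  obtain ⟨M, hM⟩ := hDχ.bounded_above_of_compact_support (hχc.fderiv ℝ)
  have hM0 : 0 ≤ M := le_trans (norm_nonneg _) (hM 0)
  have hin : ∀ ζ : ℂ, ‖ζ‖ < 1 → fderiv ℝ (χ : ℂ → ℝ) ζ = 0 := by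
    intro ζ hζ
    have : (χ : ℂ → ℝ) =ᶠ[𝓝 ζ] fun _ => 1 := by
      filter_upwards [isOpen_ball.mem_nhds (mem_ball_zero_iff.2 hζ)] with y hy
      exact χ.one_of_mem_closedBall (ball_subset_closedBall hy)
    rw [this.fderiv_eq]
    simp
  have hout : ∀ ζ : ℂ, 3 ≤ ‖ζ‖ → fderiv ℝ (χ : ℂ → ℝ) ζ = 0 := by
    intro ζ hζ
    have : (χ : ℂ → ℝ) =ᶠ[𝓝 ζ] fun _ => 0 := by
      have ho : IsOpen {y : ℂ | 2 < ‖y‖} := isOpen_lt continuous_const continuous_norm
      filter_upwards [ho.mem_nhds (show 2 < ‖ζ‖ by linarith)] with y hy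
      apply χ.zero_of_le_dist
      rw [dist_zero_right]
      exact le_of_lt hy
    rw [this.fderiv_eq]
    simp
  have main : ∀ ε : ℝ, 0 < ε → ‖u z‖ ≤ C * (M * (1 + ‖A‖) * ε) := by
    intro ε hε
    have hev : ∀ᶠ y in cocompact ℂ, ‖u y‖ < ε := by
      have := (tendsto_zero_iff_norm_tendsto_zero.1 hlim).eventually (gt_mem_nhds hε)
      exact this
    obtain ⟨K, hK, hKu⟩ := mem_cocompact.1 hev
    obtain ⟨ρ, hρ⟩ := hK.isBounded.subset_closedBall (0 : ℂ)
    set R : ℝ := |ρ| + ‖z‖ + 1 with hR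
    have hR0 : 0 < R := by positivity
    have hbig : ∀ ζ : ℂ, 1 ≤ ‖ζ‖ → ‖u (R • ζ)‖ ≤ ε := by
      intro ζ hζ
      apply le_of_lt
      apply hKu
      intro hm
      have h1 := hρ hm
      rw [mem_closedBall_zero_iff, norm_smul, Real.norm_eq_abs, abs_of_pos hR0] at h1
      have h2 : R * 1 ≤ R * ‖ζ‖ := mul_le_mul_of_nonneg_left hζ hR0.le
      have := le_abs_self ρ
      have := norm_nonneg z
      linarith
    have huR : ContDiff ℝ ∞ (fun ζ : ℂ => u (R • ζ)) := hu.comp (contDiff_id.const_smul R)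
    let G : ℂ → F := fun ζ => χ ζ • u (R • ζ)
    have hG : ContDiff ℝ ∞ G := hχ.smul huR
    have hGc : HasCompactSupport G := hχc.smul_right
    have hdb : ∀ ζ, dbar A G ζ = fderiv ℝ (χ : ℂ → ℝ) ζ 1 • u (R • ζ) +
        fderiv ℝ (χ : ℂ → ℝ) ζ Complex.I • A (u (R • ζ)) := by
      intro ζ
      have d1 : HasFDerivAt (χ : ℂ → ℝ) (fderiv ℝ (χ : ℂ → ℝ) ζ) ζ :=
        (hχ.differentiable (by simp) ζ).hasFDerivAt
      have d2 : HasFDerivAt (fun ζ : ℂ => u (R • ζ))
          ((fderiv ℝ u (R • ζ)).comp (R • ContinuousLinearMap.id ℝ ℂ)) ζ :=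
        (hu.differentiable (by simp) (R • ζ)).hasFDerivAt.comp ζ
          ((hasFDerivAt_id ζ).const_smul R)
      have d3 : fderiv ℝ G ζ = _ := (d1.smul d2).fderiv
      have e0 := h0 (R • ζ)
      unfold dbar at e0 ⊢
      rw [d3]
      simp only [add_apply, smul_apply,
        ContinuousLinearMap.comp_apply, ContinuousLinearMap.smulRight_apply,
        ContinuousLinearMap.id_apply, map_smul, map_add]
      have e1 : fderiv ℝ u (R • ζ) 1 = -A (fderiv ℝ u (R • ζ) Complex.I) :=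
        eq_neg_of_add_eq_zero_left e0
      rw [e1]
      module
    have hbd : ∀ ζ, ‖dbar A G ζ‖ ≤ M * (1 + ‖A‖) * ε := by
      intro ζ
      rw [hdb]
      by_cases hζ : ‖ζ‖ < 1
      · rw [hin ζ hζ]
        simp only [zero_apply, zero_smul, add_zero, norm_zero]
        positivity
      · have hb := hbig ζ (not_lt.1 hζ)
        have b1 : |fderiv ℝ (χ : ℂ → ℝ) ζ 1| ≤ M := by
          have := (fderiv ℝ (χ : ℂ → ℝ) ζ).le_opNorm 1
          rw [norm_one, mul_one, Real.norm_eq_abs] at this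
          exact this.trans (hM ζ)
        have b2 : |fderiv ℝ (χ : ℂ → ℝ) ζ Complex.I| ≤ M := by
          have := (fderiv ℝ (χ : ℂ → ℝ) ζ).le_opNorm Complex.I
          rw [Complex.norm_I, mul_one, Real.norm_eq_abs] at this
          exact this.trans (hM ζ)
        have b3 : ‖A (u (R • ζ))‖ ≤ ‖A‖ * ε :=
          (A.le_opNorm _).trans (mul_le_mul_of_nonneg_left hb (norm_nonneg _))
        calc _ ≤ ‖fderiv ℝ (χ : ℂ → ℝ) ζ 1 • u (R • ζ)‖ +
              ‖fderiv ℝ (χ : ℂ → ℝ) ζ Complex.I • A (u (R • ζ))‖ := norm_add_le _ _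
          _ ≤ M * ε + M * (‖A‖ * ε) := by
              rw [norm_smul, norm_smul, Real.norm_eq_abs, Real.norm_eq_abs]
              exact add_le_add (mul_le_mul b1 hb (norm_nonneg _) hM0)
                (mul_le_mul b2 b3 (norm_nonneg _) hM0)
          _ = _ := by ring
    have hz3 : ∀ ζ, 3 ≤ ‖ζ‖ → dbar A G ζ = 0 := by
      intro ζ hζ
      rw [hdb, hout ζ hζ]
      simp
    have hb := (hC (dbar A G) _ (dbar_smooth A G hG).continuous hz3 hbd).2 (R⁻¹ • z)
    rw [pomp A hA G hG hGc] at hb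
    have hGz : G (R⁻¹ • z) = u z := by
      have h1 : χ (R⁻¹ • z) = 1 := by
        apply χ.one_of_mem_closedBall
        rw [mem_closedBall_zero_iff, norm_smul, norm_inv, Real.norm_eq_abs, abs_of_pos hR0]
        change R⁻¹ * ‖z‖ ≤ 1
        rw [inv_mul_le_iff₀ hR0]
        have := abs_nonneg ρ
        linarith
      simp only [G, h1, one_smul, smul_smul, mul_inv_cancel₀ hR0.ne']
    rwa [hGz] at hb
  have hle : ‖u z‖ ≤ 0 := by
    have ht : Tendsto (fun ε : ℝ => C * (M * (1 + ‖A‖) * ε)) (𝓝[>] 0)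
        (𝓝 (C * (M * (1 + ‖A‖) * 0))) := by
      apply Tendsto.mono_left _ nhdsWithin_le_nhds
      exact (by fun_prop : Continuous (fun ε : ℝ => C * (M * (1 + ‖A‖) * ε))).tendsto 0
    rw [mul_zero, mul_zero] at ht
    apply ge_of_tendsto ht
    filter_upwards [self_mem_nhdsWithin] with ε hε using main ε hε
  exact norm_le_zero_iff.1 hle

theorem uniq (h : SCauA) [FiniteDimensional ℝ F] (A : F →L[ℝ] F) (hA : ∀ v, A (A v) = -v)
    (f : ℂ → F) (hf : ContDiff ℝ ∞ f) (hlim : Tendsto f (cocompact ℂ) (𝓝 0))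
    (hc : HasCompactSupport (dbar A f)) (z : ℂ) : f z = cT A (dbar A f) z := by
  have hs := dbar_smooth A f hf
  have hT := (h.smooth F A _ hs hc).1
  have hu := liouville h A hA (fun y => f y - cT A (dbar A f) y) (hf.sub hT)
    (by simpa using hlim.sub (h.decay F A _ hs.continuous hc)) ?_ z
  · exact sub_eq_zero.1 hu
  · intro y
    have e := solve h A hA _ hs hc y
    have d : fderiv ℝ (fun y => f y - cT A (dbar A f) y) y =
        fderiv ℝ f y - fderiv ℝ (cT A (dbar A f)) y :=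
      ((hf.differentiable (by simp) y).hasFDerivAt.sub
        (hT.differentiable (by simp) y).hasFDerivAt).fderiv
    have e' : fderiv ℝ (cT A (dbar A f)) y 1 + A (fderiv ℝ (cT A (dbar A f)) y Complex.I) =
        fderiv ℝ f y 1 + A (fderiv ℝ f y Complex.I) := e
    change fderiv ℝ (fun y => f y - cT A (dbar A f) y) y 1 +
      A (fderiv ℝ (fun y => f y - cT A (dbar A f) y) y Complex.I) = 0
    rw [d]
    simp only [sub_apply, map_sub]
    rw [← sub_eq_zero] at e'
    rw [← neg_eq_zero, ← e']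
    abel

theorem cauB (h : SCauA) : SCauB where
  pomp := fun F _ _ _ A hA g hg hc z => by
    have : CompleteSpace F := FiniteDimensional.complete ℝ F
    exact pomp A hA g hg hc z
  solve := fun F _ _ _ A hA g hg hc z => by
    have : CompleteSpace F := FiniteDimensional.complete ℝ F
    exact solve h A hA g hg hc z
  uniq := fun F _ _ _ A hA f hf hl hc z => by
    have : CompleteSpace F := FiniteDimensional.complete ℝ F
    exact uniq h A hA f hf hl hc z

end Pool.Agent.MP_13e7a1_an.H54
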