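import Pool.Agent.MP_13e7a1_an.H82.Spec

/-!
Supremum convolution along holomorphic discs.
-/

open scoped ContDiff Topology NNReal
open Set Metric MeasureTheory Filter

noncomputable section

namespace Pool.Agent.MP_13e7a1_an.H54

open Pool.Agent.MP_13e7a1_an.H82

theorem supc_bddAbove {S : Set E} {u : E → ℝ} {K ε : ℝ} (hK : ∀ x ∈ S, |u x| ≤ K) (hε : 0 < ε)
    (x : E) : BddAbove ((fun y => u y - ‖x - y‖ ^ 2 / ε) '' S) := by
  refine ⟨K, ?_⟩
  rintro _ ⟨y, hy, rfl⟩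
  have h1 := (abs_le.1 (hK y hy)).2
  have h2 : 0 ≤ ‖x - y‖ ^ 2 / ε := by positivity
  simp only
  linarith

theorem le_supc {S : Set E} {u : E → ℝ} {K ε : ℝ} (hK : ∀ x ∈ S, |u x| ≤ K) (hε : 0 < ε)
    (x : E) {y : E} (hy : y ∈ S) : u y - ‖x - y‖ ^ 2 / ε ≤ supc S u ε x :=
  le_csSup (supc_bddAbove hK hε x) ⟨y, hy, rfl⟩

theorem supc_le {S : Set E} {u : E → ℝ} {ε b : ℝ} (hS : S.Nonempty) (x : E)
    (h : ∀ y ∈ S, u y - ‖x - y‖ ^ 2 / ε ≤ b) : supc S u ε x ≤ b := by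
  apply csSup_le (hS.image _)
  rintro _ ⟨y, hy, rfl⟩
  exact h y hy

theorem exists_near {S : Set E} {u : E → ℝ} {ε γ : ℝ} (hS : S.Nonempty) (x : E) (hγ : 0 < γ) :
    ∃ y ∈ S, supc S u ε x - γ < u y - ‖x - y‖ ^ 2 / ε := by
  have h : supc S u ε x - γ < sSup ((fun y => u y - ‖x - y‖ ^ 2 / ε) '' S) := by
    change _ < supc S u ε x
    linarith
  obtain ⟨_, ⟨y, hy, rfl⟩, h2⟩ := exists_lt_of_lt_csSup (hS.image _) h
  exact ⟨y, hy, h2⟩

theorem sup_lip (p : E) (R K : ℝ) (u : E → ℝ) (hR : 0 < R) (hK : ∀ x ∈ ball p R, |u x| ≤ K)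
    (ε : ℝ) (hε : 0 < ε) :
    ∃ Lc : ℝ≥0, LipschitzOnWith Lc (supc (ball p R) u ε) (ball p R) := by
  refine ⟨⟨4 * R / ε, by positivity⟩, LipschitzOnWith.of_le_add_mul _ ?_⟩
  intro x hx x' hx'
  apply supc_le (nonempty_ball.2 hR)
  intro y hy
  have h1 := le_supc hK hε x' hy
  have hxy : ‖x - y‖ ≤ 2 * R := by
    have := dist_triangle_right x y p
    rw [mem_ball] at hx hy
    rw [← dist_eq_norm]
    linarith
  have hxy' : ‖x' - y‖ ≤ 2 * R := by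
    have := dist_triangle_right x' y p
    rw [mem_ball] at hx' hy
    rw [← dist_eq_norm]
    linarith
  have h2 : ‖x' - y‖ ≤ ‖x - y‖ + dist x x' := by
    have := dist_triangle x' x y
    rw [dist_comm x' x, dist_eq_norm x y, dist_eq_norm x' y] at this
    linarith
  have h3 : ‖x' - y‖ ^ 2 - ‖x - y‖ ^ 2 ≤ 4 * R * dist x x' := by
    have hd : 0 ≤ dist x x' := dist_nonneg
    have e : ‖x' - y‖ ^ 2 - ‖x - y‖ ^ 2 = (‖x' - y‖ - ‖x - y‖) * (‖x' - y‖ + ‖x - y‖) := by ring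
    rw [e]
    calc _ ≤ dist x x' * (‖x' - y‖ + ‖x - y‖) :=
          mul_le_mul_of_nonneg_right (by linarith) (by positivity)
      _ ≤ dist x x' * (4 * R) := mul_le_mul_of_nonneg_left (by linarith) hd
      _ = _ := by ring
  have h4 : ‖x' - y‖ ^ 2 / ε - ‖x - y‖ ^ 2 / ε ≤ 4 * R / ε * dist x x' := by
    rw [← sub_div, div_mul_eq_mul_div]
    exact div_le_div_of_nonneg_right h3 hε.le
  change _ ≤ _ + 4 * R / ε * dist x x'
  linarith

theorem sup_mono (p : E) (R K : ℝ) (u : E → ℝ) (hR : 0 < R) (hK : ∀ x ∈ ball p R, |u x| ≤ K)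
    (ε ε' : ℝ) (hε : 0 < ε) (h : ε ≤ ε') (x : E) :
    supc (ball p R) u ε x ≤ supc (ball p R) u ε' x := by
  apply supc_le (nonempty_ball.2 hR)
  intro y hy
  have h1 := le_supc hK (hε.trans_le h) x hy
  have h2 : ‖x - y‖ ^ 2 / ε' ≤ ‖x - y‖ ^ 2 / ε :=
    div_le_div_of_nonneg_left (by positivity) hε h
  linarith

theorem sup_ge {S : Set E} {u : E → ℝ} {K ε : ℝ} (hK : ∀ x ∈ S, |u x| ≤ K) (hε : 0 < ε)
    {x : E} (hx : x ∈ S) : u x ≤ supc S u ε x := by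
  simpa using le_supc hK hε x hx

theorem sup_bdd (p : E) (R K : ℝ) (u : E → ℝ) (hR : 0 < R) (hK : ∀ x ∈ ball p R, |u x| ≤ K)
    (ε : ℝ) (hε : 0 < ε) (x : E) (hx : x ∈ ball p R) : |supc (ball p R) u ε x| ≤ K := by
  rw [abs_le]
  constructor
  · exact (abs_le.1 (hK x hx)).1.trans (sup_ge hK hε hx)
  · apply supc_le (nonempty_ball.2 hR)
    intro y hy
    have h1 := (abs_le.1 (hK y hy)).2
    have h2 : 0 ≤ ‖x - y‖ ^ 2 / ε := by positivity
    linarith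

theorem sup_lim (p : E) (R K : ℝ) (u : E → ℝ) (hR : 0 < R) (hK : ∀ x ∈ ball p R, |u x| ≤ K)
    (hu : UpperSemicontinuousOn u (ball p R)) (x : E) (hx : x ∈ ball p R) :
    Tendsto (fun ε => supc (ball p R) u ε x) (𝓝[>] 0) (𝓝 (u x)) := by
  have hK0 : 0 ≤ K := (abs_nonneg _).trans (hK x hx)
  rw [tendsto_order]
  constructor
  · intro a ha
    filter_upwards [self_mem_nhdsWithin] with ε hε
    exact ha.trans_le (sup_ge hK hε hx)
  · intro a ha
    obtain ⟨b, hb1, hb2⟩ := exists_between ha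
    have h1 : ∀ᶠ y in 𝓝[ball p R] x, u y < b := hu x hx b hb1
    obtain ⟨ρ, hρ, h2⟩ := mem_nhdsWithin_iff.1 h1
    have hpos : 0 < ρ ^ 2 / (2 * K + 1) := by positivity
    filter_upwards [Ioo_mem_nhdsGT hpos] with ε hε
    refine lt_of_le_of_lt ?_ hb2
    apply supc_le (nonempty_ball.2 hR)
    intro y hy
    have h3 : 0 ≤ ‖x - y‖ ^ 2 / ε := div_nonneg (by positivity) hε.1.le
    by_cases hn : y ∈ ball x ρ
    · have : u y < b := h2 ⟨hn, hy⟩
      linarith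
    · rw [mem_ball, not_lt, dist_comm, dist_eq_norm] at hn
      have h4 : 2 * K + 1 ≤ ‖x - y‖ ^ 2 / ε := by
        rw [le_div_iff₀ hε.1]
        have h5 := hε.2
        rw [lt_div_iff₀ (by positivity)] at h5
        have h6 : ρ ^ 2 ≤ ‖x - y‖ ^ 2 := pow_le_pow_left₀ hρ.le hn 2
        linarith
      have h7 := (abs_le.1 (hK y hy)).2
      have h8 := (abs_le.1 (hK x hx)).1
      linarith

/-- First and second symmetric differences on a compact convex set. -/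
theorem diff_bounds {X G : Type} [NormedAddCommGroup X] [NormedSpace ℝ X] [NormedAddCommGroup G]
    [NormedSpace ℝ G] (P : X → G) (hP : ContDiff ℝ ∞ P) (T : Set X) (hT : Convex ℝ T)
    (hc : IsCompact T) : ∃ C : ℝ, 0 ≤ C ∧ ∀ a h : X, a + h ∈ T → a - h ∈ T →
      ‖P (a + h) - P (a - h)‖ ≤ C * ‖h‖ ∧ ‖P (a + h) + P (a - h) - (2 : ℝ) • P a‖ ≤ C * ‖h‖ ^ 2 := by
  obtain ⟨L1, h1⟩ := hP.contDiffOn.exists_lipschitzOnWith (by simp) hT hc
  have hD : ContDiff ℝ ∞ (fderiv ℝ P) := hP.fderiv_right (by simp)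
  obtain ⟨L2, h2⟩ := hD.contDiffOn.exists_lipschitzOnWith (by simp) hT hc
  refine ⟨2 * L1 + 2 * L2, by positivity, fun a h hp hm => ⟨?_, ?_⟩⟩
  · have := h1.norm_sub_le hp hm
    have e : a + h - (a - h) = (2 : ℝ) • h := by module
    rw [e, norm_smul, Real.norm_two] at this
    have h3 : 0 ≤ (L2 : ℝ) * ‖h‖ := by positivity
    linarith
  · have hmem : ∀ t : ℝ, -1 ≤ t → t ≤ 1 → a + t • h ∈ T := by
      intro t ht1 ht2
      have := hT hp hm (a := (1 + t) / 2) (b := (1 - t) / 2) (by linarith) (by linarith) (by ring)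
      convert this using 1
      module
    have hder : ∀ t ∈ Icc (0 : ℝ) 1, HasDerivWithinAt (fun t : ℝ => P (a + t • h) + P (a + (-t) • h))
        (fderiv ℝ P (a + t • h) h - fderiv ℝ P (a + (-t) • h) h) (Icc 0 1) t := by
      intro t _
      have d1 : HasDerivAt (fun t : ℝ => a + t • h) h t := by
        simpa using ((hasDerivAt_id t).smul_const h).const_add a
      have d2 : HasDerivAt (fun t : ℝ => a + (-t) • h) (-h) t := by
        simpa using ((hasDerivAt_neg t).smul_const h).const_add a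
      have e1 := (hP.differentiable (by simp) _).hasFDerivAt.comp_hasDerivAt t d1
      have e2 := (hP.differentiable (by simp) _).hasFDerivAt.comp_hasDerivAt t d2
      rw [map_neg] at e2
      rw [sub_eq_add_neg]
      exact (e1.add e2).hasDerivWithinAt
    have hb : ∀ t ∈ Ico (0 : ℝ) 1,
        ‖fderiv ℝ P (a + t • h) h - fderiv ℝ P (a + (-t) • h) h‖ ≤ 2 * L2 * ‖h‖ ^ 2 := by
      intro t ht
      have m1 := hmem t (by linarith [ht.1]) ht.2.le
      have m2 := hmem (-t) (by linarith [ht.2]) (by linarith [ht.1])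
      have l := h2.norm_sub_le m1 m2
      have e : a + t • h - (a + (-t) • h) = (2 * t) • h := by module
      rw [e, norm_smul, Real.norm_eq_abs, abs_of_nonneg (by linarith [ht.1])] at l
      have l2 : ‖fderiv ℝ P (a + t • h) - fderiv ℝ P (a + (-t) • h)‖ ≤ 2 * L2 * ‖h‖ := by
        refine l.trans ?_
        have : (L2 : ℝ) * (2 * t * ‖h‖) = t * (2 * L2 * ‖h‖) := by ring
        rw [this]
        exact mul_le_of_le_one_left (by positivity) ht.2.le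
      calc _ = ‖(fderiv ℝ P (a + t • h) - fderiv ℝ P (a + (-t) • h)) h‖ := rfl
        _ ≤ ‖fderiv ℝ P (a + t • h) - fderiv ℝ P (a + (-t) • h)‖ * ‖h‖ :=
          ContinuousLinearMap.le_opNorm _ _
        _ ≤ 2 * L2 * ‖h‖ * ‖h‖ := mul_le_mul_of_nonneg_right l2 (norm_nonneg _)
        _ = _ := by ring
    have := norm_image_sub_le_of_norm_deriv_le_segment_01' hder hb
    have e : P (a + (1 : ℝ) • h) + P (a + (-1 : ℝ) • h) - (P (a + (0 : ℝ) • h) + P (a + (-0 : ℝ) • h)) =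
        P (a + h) + P (a - h) - (2 : ℝ) • P a := by
      simp only [one_smul, neg_smul, neg_zero, zero_smul, add_zero, two_smul, sub_eq_add_neg]
    rw [e] at this
    have h3 : 0 ≤ (L1 : ℝ) * ‖h‖ ^ 2 := by positivity
    linarith

/-- The parallelogram estimate for two discs. -/
theorem disc_par (lam : E × E × ℂ → E) (hl : ContDiff ℝ ∞ lam) (p : E) (δ : ℝ) :
    ∃ C : ℝ, 0 ≤ C ∧ ∀ x ∈ ball p δ, ∀ y ∈ ball p δ, ∀ Z ∈ ball (0 : E) δ, ∀ ζ : ℂ, ‖ζ‖ ≤ 1 →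
      lam (x, Z, 0) = x → lam (y, Z, 0) = y →
      ‖lam (x, Z, ζ) - lam (y, Z, ζ)‖ ^ 2 + ‖lam (x, Z, -ζ) - lam (y, Z, -ζ)‖ ^ 2 ≤
        2 * ‖x - y‖ ^ 2 * (1 + C * ‖ζ‖ ^ 2) := by
  let P : E × E × ℂ → E →L[ℝ] E := fun q => (fderiv ℝ lam q).comp (ContinuousLinearMap.inl ℝ E (E × ℂ))
  have hD : ContDiff ℝ ∞ (fderiv ℝ lam) := hl.fderiv_right (by simp)
  have hP : ContDiff ℝ ∞ P := hD.clm_comp contDiff_const
  have hPd : ∀ (x Z : E) (ζ : ℂ), HasFDerivAt (fun x => lam (x, Z, ζ)) (P (x, Z, ζ)) x := by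
    intro x Z ζ
    exact (hl.differentiable (by simp) _).hasFDerivAt.comp x (hasFDerivAt_prodMk_left x (Z, ζ))
  obtain ⟨C, hC0, hC⟩ := diff_bounds P hP
    (closedBall p δ ×ˢ (closedBall (0 : E) δ ×ˢ closedBall (0 : ℂ) 1))
    ((convex_closedBall _ _).prod ((convex_closedBall _ _).prod (convex_closedBall _ _)))
    ((isCompact_closedBall _ _).prod ((isCompact_closedBall _ _).prod (isCompact_closedBall _ _)))
  refine ⟨C + C ^ 2, by positivity, fun x hx y hy Z hZ ζ hζ hx0 hy0 => ?_⟩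
  have key : ∀ w ∈ ball p δ, ‖P (w, Z, ζ) - P (w, Z, -ζ)‖ ≤ C * ‖ζ‖ ∧
      ‖P (w, Z, ζ) + P (w, Z, -ζ) - (2 : ℝ) • P (w, Z, 0)‖ ≤ C * ‖ζ‖ ^ 2 := by
    intro w hw
    have e1 : ((w, Z, 0) : E × E × ℂ) + (0, 0, ζ) = (w, Z, ζ) := by simp
    have e2 : ((w, Z, 0) : E × E × ℂ) - (0, 0, ζ) = (w, Z, -ζ) := by simp
    have e3 : ‖((0, 0, ζ) : E × E × ℂ)‖ = ‖ζ‖ := by simp
    have := hC (w, Z, 0) (0, 0, ζ)
      (by rw [e1]; exact ⟨ball_subset_closedBall hw, ball_subset_closedBall hZ,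
        mem_closedBall_zero_iff.2 hζ⟩)
      (by rw [e2]; exact ⟨ball_subset_closedBall hw, ball_subset_closedBall hZ,
        mem_closedBall_zero_iff.2 (by rwa [norm_neg])⟩)
    rwa [e1, e2, e3] at this
  have hb : ‖(lam (x, Z, ζ) - lam (x, Z, -ζ)) - (lam (y, Z, ζ) - lam (y, Z, -ζ))‖ ≤
      C * ‖ζ‖ * ‖x - y‖ :=
    (convex_ball p δ).norm_image_sub_le_of_norm_hasFDerivWithin_le
      (f := fun w => lam (w, Z, ζ) - lam (w, Z, -ζ))
      (fun w _ => ((hPd w Z ζ).sub (hPd w Z (-ζ))).hasFDerivWithinAt) (fun w hw => (key w hw).1)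
      hy hx
  have ha : ‖(lam (x, Z, ζ) + lam (x, Z, -ζ) - (2 : ℝ) • lam (x, Z, 0)) -
      (lam (y, Z, ζ) + lam (y, Z, -ζ) - (2 : ℝ) • lam (y, Z, 0))‖ ≤ C * ‖ζ‖ ^ 2 * ‖x - y‖ :=
    (convex_ball p δ).norm_image_sub_le_of_norm_hasFDerivWithin_le
      (f := fun w => lam (w, Z, ζ) + lam (w, Z, -ζ) - (2 : ℝ) • lam (w, Z, 0))
      (fun w _ => (((hPd w Z ζ).add (hPd w Z (-ζ))).sub
        ((hPd w Z 0).const_smul (2 : ℝ))).hasFDerivWithinAt) (fun w hw => (key w hw).2) hy hx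
  rw [hx0, hy0] at ha
  set D1 := lam (x, Z, ζ) - lam (y, Z, ζ) with hD1
  set D2 := lam (x, Z, -ζ) - lam (y, Z, -ζ) with hD2
  have eb : (lam (x, Z, ζ) - lam (x, Z, -ζ)) - (lam (y, Z, ζ) - lam (y, Z, -ζ)) = D1 - D2 := by
    rw [hD1, hD2]; abel
  have ea : (lam (x, Z, ζ) + lam (x, Z, -ζ) - (2 : ℝ) • x) -
      (lam (y, Z, ζ) + lam (y, Z, -ζ) - (2 : ℝ) • y) = D1 + D2 - (2 : ℝ) • (x - y) := by
    rw [hD1, hD2]; module
  rw [eb] at hb
  rw [ea] at ha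
  have ha2 : ‖D1 + D2‖ ≤ (2 + C * ‖ζ‖ ^ 2) * ‖x - y‖ := by
    have := norm_add_le (D1 + D2 - (2 : ℝ) • (x - y)) ((2 : ℝ) • (x - y))
    rw [sub_add_cancel, norm_smul, Real.norm_two] at this
    linarith
  have hpar := parallelogram_law_with_norm ℝ D1 D2
  have s1 : ‖D1 + D2‖ ^ 2 ≤ ((2 + C * ‖ζ‖ ^ 2) * ‖x - y‖) ^ 2 :=
    pow_le_pow_left₀ (norm_nonneg _) ha2 2
  have s2 : ‖D1 - D2‖ ^ 2 ≤ (C * ‖ζ‖ * ‖x - y‖) ^ 2 := pow_le_pow_left₀ (norm_nonneg _) hb 2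
  have hz2 : ‖ζ‖ ^ 2 ≤ 1 := pow_le_one₀ (norm_nonneg _) hζ
  have s3 : C ^ 2 * ‖ζ‖ ^ 2 * ‖x - y‖ ^ 2 * ‖ζ‖ ^ 2 ≤ C ^ 2 * ‖ζ‖ ^ 2 * ‖x - y‖ ^ 2 :=
    mul_le_of_le_one_right (by positivity) hz2
  have s4 : 0 ≤ C ^ 2 * ‖ζ‖ ^ 2 * ‖x - y‖ ^ 2 := by positivity
  nlinarith

theorem avg_neg (f : ℂ → ℝ) (r : ℝ) :
    Real.circleAverage (fun ζ => f (-ζ)) 0 r = Real.circleAverage f 0 r := by
  rw [← Real.circleAverage_neg_radius (f := f)]
  unfold Real.circleAverage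
  congr 2
  ext θ
  simp [circleMap]

theorem sup_asm (c : Ctx) (p : E) (R δ K : ℝ) (lam : E × E × ℂ → E) (u : E → ℝ) (hδ : 0 < δ)
    (hδR : δ ≤ R) (hF : c.Fam p R δ lam) (hu : c.Psh (ball p R) u)
    (hK : ∀ x ∈ ball p R, |u x| ≤ K) :
    ∃ A ε₀ : ℝ, 0 ≤ A ∧ 0 < ε₀ ∧ ∀ ε : ℝ, 0 < ε → ε ≤ ε₀ → ∀ x ∈ ball p (δ / 2),
      ∀ Z ∈ ball (0 : E) δ, ∀ r : ℝ, 0 < r → r < 1 →
        supc (ball p R) u ε x - A * r ^ 2 * (supc (ball p R) u (2 * ε) x - supc (ball p R) u ε x) ≤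
          Real.circleAverage (fun ζ => supc (ball p R) u ε (lam (x, Z, ζ))) 0 r := by
  have hR : 0 < R := hδ.trans_le hδR
  have hK0 : 0 ≤ K := (abs_nonneg _).trans (hK p (mem_ball_self hR))
  obtain ⟨C, hC0, hC⟩ := disc_par lam hF.smooth p δ
  refine ⟨2 * C, (δ / 2) ^ 2 / (2 * K + 1), by positivity, by positivity, ?_⟩
  intro ε hε hε0 x hx Z hZ r hr hr1
  have hxδ : x ∈ ball p δ := ball_subset_ball (by linarith) hx
  have hxR : x ∈ ball p R := ball_subset_ball hδR hxδ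
  have hsph : ∀ ζ ∈ sphere (0 : ℂ) |r|, ‖ζ‖ = r := by
    intro ζ hζ
    rwa [mem_sphere_zero_iff_norm, abs_of_pos hr] at hζ
  have hsb : ∀ ζ ∈ sphere (0 : ℂ) |r|, ζ ∈ ball (0 : ℂ) 1 := by
    intro ζ hζ
    rw [mem_ball_zero_iff, hsph ζ hζ]
    exact hr1
  have hsm : ∀ w : E, ContDiff ℝ ∞ (fun ζ : ℂ => lam (w, Z, ζ)) := fun w =>
    hF.smooth.comp (contDiff_const.prodMk (contDiff_const.prodMk contDiff_id))
  obtain ⟨Lc, hLc⟩ := sup_lip p R K u hR hK ε hε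
  have hint : CircleIntegrable (fun ζ => supc (ball p R) u ε (lam (x, Z, ζ))) 0 r := by
    apply ContinuousOn.circleIntegrable'
    exact hLc.continuousOn.comp (hsm x).continuous.continuousOn
      (fun ζ hζ => hF.maps x hxδ Z hZ ζ (hsb ζ hζ))
  set s := supc (ball p R) u ε x with hs
  set s2 := supc (ball p R) u (2 * ε) x with hs2
  set av := Real.circleAverage (fun ζ => supc (ball p R) u ε (lam (x, Z, ζ))) 0 r with hav
  have main : ∀ γ : ℝ, 0 < γ → γ ≤ 1 →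
      s - 2 * C * r ^ 2 * (s2 - s) - γ * (1 + 2 * C * r ^ 2) ≤ av := by
    intro γ hγ hγ1
    obtain ⟨y, hyR, hy⟩ := exists_near (u := u) (ε := ε) (nonempty_ball.2 hR) x hγ
    rw [← hs] at hy
    have b1 := (abs_le.1 (sup_bdd p R K u hR hK ε hε x hxR)).1
    rw [← hs] at b1
    have b2 := (abs_le.1 (hK y hyR)).2
    have b3 : ‖x - y‖ ^ 2 / ε ≤ 2 * K + 1 := by linarith
    have b4 : ‖x - y‖ ≤ δ / 2 := by
      rw [div_le_iff₀ hε] at b3
      rw [le_div_iff₀ (by positivity)] at hε0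
      exact le_of_sq_le_sq (by nlinarith) (by linarith)
    have hyδ : y ∈ ball p δ := by
      rw [mem_ball] at hx ⊢
      have := dist_triangle y x p
      rw [dist_comm y x, dist_eq_norm x y] at this
      linarith
    have b5 : ‖x - y‖ ^ 2 / ε ≤ 2 * (s2 - s) + 2 * γ := by
      have h1 := le_supc hK (show 0 < 2 * ε by positivity) x hyR
      rw [← hs2] at h1
      have e : ‖x - y‖ ^ 2 / (2 * ε) = ‖x - y‖ ^ 2 / ε / 2 := by
        field_simp
      rw [e] at h1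
      linarith
    have hmaps : MapsTo (fun ζ : ℂ => lam (y, Z, ζ)) (ball 0 1) (ball p R) :=
      fun ζ hζ => hF.maps y hyδ Z hZ ζ hζ
    have hsub := hu.2 (fun ζ => lam (y, Z, ζ)) (hsm y) hmaps (hF.hol y hyδ Z hZ) r hr hr1
    simp only [hF.zero y hyδ Z hZ] at hsub
    have hcm : ∀ θ : ℝ, lam (y, Z, circleMap 0 r θ) ∈ ball p R := fun θ =>
      hmaps (hsb _ (circleMap_mem_sphere' 0 r θ))
    have hintu : CircleIntegrable (fun ζ => u (lam (y, Z, ζ))) 0 r := by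
      have h1 : UpperSemicontinuous (u ∘ fun θ : ℝ => lam (y, Z, circleMap 0 r θ)) := by
        rw [← upperSemicontinuousOn_univ_iff]
        exact hu.1.comp ((hsm y).continuous.comp (continuous_circleMap 0 r)).continuousOn
          (fun θ _ => hcm θ)
      have h2 := h1.measurable
      refine IntervalIntegrable.mono_fun' (g := fun _ => K) intervalIntegrable_const
        h2.aestronglyMeasurable ?_
      exact Eventually.of_forall fun θ => hK _ (hcm θ)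
    let d : ℂ → ℝ := fun ζ => ‖lam (x, Z, ζ) - lam (y, Z, ζ)‖ ^ 2
    have hd : Continuous d := ((hsm x).continuous.sub (hsm y).continuous).norm.pow 2
    have hdi : CircleIntegrable d 0 r := hd.continuousOn.circleIntegrable'
    have hdi' : CircleIntegrable (fun ζ => d (-ζ)) 0 r :=
      (hd.comp continuous_neg).continuousOn.circleIntegrable'
    have hdav : Real.circleAverage d 0 r ≤ ‖x - y‖ ^ 2 * (1 + C * r ^ 2) := by
      have h1 : Real.circleAverage (fun ζ => d ζ + d (-ζ)) 0 r ≤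
          2 * ‖x - y‖ ^ 2 * (1 + C * r ^ 2) := by
        apply Real.circleAverage_mono_on_of_le_circle (hdi.add hdi')
        intro ζ hζ
        have := hC x hxδ y hyδ Z hZ ζ (by rw [hsph ζ hζ]; exact hr1.le)
          (hF.zero x hxδ Z hZ) (hF.zero y hyδ Z hZ)
        rw [hsph ζ hζ] at this
        exact this
      rw [Real.circleAverage_fun_add hdi hdi', avg_neg] at h1
      linarith
    have hdi2 : CircleIntegrable (fun ζ => ε⁻¹ • d ζ) 0 r :=
      (hd.const_smul ε⁻¹).continuousOn.circleIntegrable'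
    have hmono : Real.circleAverage (fun ζ => u (lam (y, Z, ζ)) - ε⁻¹ • d ζ) 0 r ≤ av := by
      apply Real.circleAverage_mono (hintu.sub hdi2) hint
      intro ζ hζ
      have := le_supc hK hε (lam (x, Z, ζ)) (hmaps (hsb ζ hζ))
      rw [div_eq_inv_mul] at this
      exact this
    rw [Real.circleAverage_fun_sub hintu hdi2, Real.circleAverage_fun_smul, smul_eq_mul] at hmono
    have b6 : ε⁻¹ * Real.circleAverage d 0 r ≤ ‖x - y‖ ^ 2 / ε * (1 + C * r ^ 2) := by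
      rw [div_eq_inv_mul, mul_assoc]
      exact mul_le_mul_of_nonneg_left hdav (by positivity)
    have b7 : ‖x - y‖ ^ 2 / ε * (C * r ^ 2) ≤ (2 * (s2 - s) + 2 * γ) * (C * r ^ 2) :=
      mul_le_mul_of_nonneg_right b5 (by positivity)
    nlinarith
  have ht : Tendsto (fun γ : ℝ => s - 2 * C * r ^ 2 * (s2 - s) - γ * (1 + 2 * C * r ^ 2)) (𝓝[>] 0)
      (𝓝 (s - 2 * C * r ^ 2 * (s2 - s) - 0 * (1 + 2 * C * r ^ 2))) := by
    apply Tendsto.mono_left _ nhdsWithin_le_nhds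
    exact (by fun_prop : Continuous
      (fun γ : ℝ => s - 2 * C * r ^ 2 * (s2 - s) - γ * (1 + 2 * C * r ^ 2))).tendsto 0
  rw [zero_mul, sub_zero] at ht
  apply le_of_tendsto ht
  filter_upwards [Ioc_mem_nhdsGT (zero_lt_one' ℝ)] with γ hγ using main γ hγ.1 hγ.2

theorem sup : SSup where
  lip := sup_lip
  mono := sup_mono
  bdd := sup_bdd
  lim := sup_lim
  asm := sup_asm

end Pool.Agent.MP_13e7a1_an.H54
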