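import Pool.Agent.MP_13e7a1_an.H82.Tools

/-!
The bound for the integral of `w (al dF dA) (al dF dA)`.
-/

open scoped ContDiff Topology Matrix
open Set Metric MeasureTheory Filter

noncomputable section

namespace Pool.Agent.MP_13e7a1_an.H54

open Pool.Agent.MP_13e7a1_an.H82

theorem half_sq_smooth : ContDiff ℝ ∞ (fun s : ℝ => s ^ 2 / 2) := by fun_prop

theorem deriv_half_sq : deriv (fun s : ℝ => s ^ 2 / 2) = fun s => s := by
  ext s
  have : HasDerivAt (fun s : ℝ => s ^ 2 / 2) (((2 : ℕ) : ℝ) * s ^ (2 - 1) / 2) s :=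
    (hasDerivAt_pow 2 s).div_const 2
  rw [this.deriv]
  simp

theorem T_half_sq (hP : SPt) (c : Ctx) {h : E → ℝ} (hh : ContDiff ℝ ∞ h) (x : E) :
    c.T (fun y => h y ^ 2 / 2) x = h x • c.T h x + c.s x (grad h x) (grad h x) := by
  have := hP.chain c h (fun s : ℝ => s ^ 2 / 2) hh half_sq_smooth x
  rw [deriv_half_sq] at this
  simpa using this

theorem grad_half_sq {h : E → ℝ} (hh : ContDiff ℝ ∞ h) (x : E) :
    grad (fun y => h y ^ 2 / 2) x = h x • grad h x := by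
  have := grad_comp (ψ := fun s : ℝ => s ^ 2 / 2) hh half_sq_smooth x
  rw [deriv_half_sq] at this
  exact this

theorem phi_split (hP : SPt) (c : Ctx) {h : E → ℝ} (hh : ContDiff ℝ ∞ h) {x : E} {K : ℝ}
    (h0 : 0 ≤ h x) (hK : h x ≤ K) (hp : c.Pos x (c.T h x + K • c.Om x)) :
    ∃ P : Mat, c.Pos x P ∧
      c.T (fun y => h y ^ 2 / 2) x + K ^ 2 • c.Om x = c.s x (grad h x) (grad h x) + P := by
  refine ⟨h x • (c.T h x + K • c.Om x) + (K ^ 2 - h x * K) • c.Om x,
    (hp.smul h0).add ((c.Om_pos x).smul (by nlinarith)), ?_⟩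
  rw [T_half_sq hP c hh]
  module

theorem lap_bd (hI : SIntB) (c : Ctx) {D : Set E} (hD : IsCompact D) {φ : E → ℝ}
    (hφ : ContDiff ℝ ∞ φ) (hφ1 : ∀ x, 0 ≤ φ x ∧ φ x ≤ 1) (hφ0 : ∀ x, x ∉ D → φ x = 0) :
    ∃ C : ℝ, 0 ≤ C ∧ ∀ g : E → ℝ, ContDiff ℝ ∞ g →
      ∫ x in D, φ x * c.w (c.T g x) (c.Om x) ≤ C * ∫ x in D, ‖grad g x‖ := by
  obtain ⟨Y, hY, hl⟩ := hI.lap c
  obtain ⟨a, ha, h1⟩ := c.ws_bd hD c.continuous_Om
  obtain ⟨b, hb, h2⟩ := exists_bound hD (continuous_grad hφ)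
  obtain ⟨d, hd, h3⟩ := exists_bound hD hY
  refine ⟨a * b + 4 * d, by positivity, fun g hg => ?_⟩
  have hgc := continuous_grad hg
  have hφc := hφ.continuous
  rw [hl D hD φ g hφ hg hφ0]
  have k1 : |∫ x in D, c.w (c.s x (grad φ x) (grad g x)) (c.Om x)| ≤
      ∫ x in D, a * b * ‖grad g x‖ := by
    refine abs_int_le hD (c.continuous_w (c.continuous_s (continuous_grad hφ) hgc) c.continuous_Om)
      (by fun_prop) fun x hx => (h1 x hx _ _).trans ?_
    rw [mul_assoc]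
    exact mul_le_mul_of_nonneg_left (mul_le_mul_of_nonneg_right (h2 x hx) (norm_nonneg _)) ha
  have k2 : ∫ x in D, φ x * (Y x ⬝ᵥ grad g x) ≤ ∫ x in D, 4 * d * ‖grad g x‖ := by
    refine int_mono hD (hφc.mul (hY.dotProduct hgc)) (by fun_prop) fun x hx => ?_
    have e1 := abs_dot_le (Y x) (grad g x)
    have e2 : ‖Y x‖ * ‖grad g x‖ ≤ d * ‖grad g x‖ :=
      mul_le_mul_of_nonneg_right (h3 x hx) (norm_nonneg _)
    have e3 : φ x * (Y x ⬝ᵥ grad g x) ≤ |Y x ⬝ᵥ grad g x| := by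
      refine (le_abs_self _).trans ?_
      rw [abs_mul, abs_of_nonneg (hφ1 x).1]
      exact mul_le_of_le_one_left (abs_nonneg _) (hφ1 x).2
    linarith
  rw [integral_const_mul] at k1 k2
  have := (abs_le.1 k1).1
  linarith

theorem grad_l1 {D : Set E} (hD : IsCompact D) {h : E → ℝ} (hh : ContDiff ℝ ∞ h) {K : ℝ}
    (hK : ∀ x ∈ D, 0 ≤ h x ∧ h x ≤ K) (hK0 : 0 ≤ K) :
    ∫ x in D, ‖grad (fun y => h y ^ 2 / 2) x‖ ≤
      K * (volume.real D + ∫ x in D, ‖grad h x‖ ^ 2) := by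
  have hgc := continuous_grad hh
  have hq : ContDiff ℝ ∞ (fun y => h y ^ 2 / 2) := half_sq_smooth.comp hh
  have : ∫ x in D, ‖grad (fun y => h y ^ 2 / 2) x‖ ≤ ∫ x in D, K * (1 + ‖grad h x‖ ^ 2) := by
    refine int_mono hD (continuous_grad hq).norm (by fun_prop) fun x hx => ?_
    rw [grad_half_sq hh, norm_smul, Real.norm_eq_abs, abs_of_nonneg (hK x hx).1]
    refine mul_le_mul (hK x hx).2 ?_ (norm_nonneg _) hK0
    nlinarith [sq_nonneg (‖grad h x‖ - 1), norm_nonneg (grad h x)]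
  rw [integral_const_mul, int_add hD continuous_const (by fun_prop), int_const, mul_one] at this
  exact this

theorem int4 {D : Set E} (hD : IsCompact D) {f1 f2 f3 f4 : E → ℝ} (h1 : Continuous f1)
    (h2 : Continuous f2) (h3 : Continuous f3) (h4 : Continuous f4) (s t : ℝ) :
    ∫ x in D, 2 * (f1 x + s * f2 x + s * f3 x + t * f4 x) =
      2 * ((∫ x in D, f1 x) + s * (∫ x in D, f2 x) + s * (∫ x in D, f3 x) + t * ∫ x in D, f4 x) := by
  rw [integral_const_mul, int_add hD (by fun_prop) (by fun_prop),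
    int_add hD (by fun_prop) (by fun_prop), int_add hD (by fun_prop) (by fun_prop),
    integral_const_mul, integral_const_mul, integral_const_mul]

theorem tri (hA : SLinA) (_hB : SLinB) (hP : SPt) (hIA : SIntA) (hIB : SIntB) : STri := by
  intro c p R R₁ K hR₁ hR
  have hD : IsCompact (closedBall p R) := isCompact_closedBall p R
  set D := closedBall p R with hDdef
  obtain ⟨φ, hφ, hφ1, hφin, hφout⟩ := exists_cutoff p hR₁ hR
  have hφ0 : ∀ x, x ∉ D → φ x = 0 := fun x hx => hφout x fun h => hx (ball_subset_closedBall h)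
  have hφc := hφ.continuous
  obtain ⟨C1, hC1, h1⟩ := c.eden_bd hD hφ
  obtain ⟨C3, hC3, h3⟩ := lap_bd hIB c hD hφ hφ1 hφ0
  set W : ℝ := ∫ x in D, φ x * c.w (c.Om x) (c.Om x) with hW
  have hW0 : 0 ≤ W := int_nonneg hD fun x _ => mul_nonneg (hφ1 x).1 (c.w_Om_Om x).le
  have hv0 : 0 ≤ volume.real D := measureReal_nonneg
  refine ⟨2 * (C1 * K ^ 2 + 2 * (K ^ 2 * C3 * |K|) * (volume.real D + 1) + K ^ 4 * W),
    by positivity, fun F A hF hAs hF0 hyp => ?_⟩
  have hpD : p ∈ D := mem_closedBall_self (by linarith)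
  have hK0 : 0 ≤ K := (hyp p hpD).1.trans (hyp p hpD).2.1
  rw [abs_of_nonneg hK0]
  have hqF : ContDiff ℝ ∞ (fun y => F y ^ 2 / 2) := half_sq_smooth.comp hF
  have hqA : ContDiff ℝ ∞ (fun y => A y ^ 2 / 2) := half_sq_smooth.comp hAs
  have hgF := continuous_grad hF
  have hgA := continuous_grad hAs
  have cTF := c.continuous_T hqF
  have cTA := c.continuous_T hqA
  have cOm := c.continuous_Om
  set a : ℝ := ∫ x in D, ‖grad F x‖ ^ 2 with ha
  set b : ℝ := ∫ x in D, ‖grad A x‖ ^ 2 with hb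
  have ha0 : 0 ≤ a := int_nonneg hD fun x _ => sq_nonneg _
  have hb0 : 0 ≤ b := int_nonneg hD fun x _ => sq_nonneg _
  have c1 := hφc.mul (c.continuous_w cTF cTA)
  have c2 := hφc.mul (c.continuous_w cTF cOm)
  have c3 := hφc.mul (c.continuous_w cTA cOm)
  have c4 := hφc.mul (c.continuous_w cOm cOm)
  have step1 : ∫ x in D, c.w (c.al x (grad F x) (grad A x)) (c.al x (grad F x) (grad A x)) ≤
      ∫ x in D, 2 * (φ x * c.w (c.T (fun y => F y ^ 2 / 2) x) (c.T (fun y => A y ^ 2 / 2) x)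
        + K ^ 2 * (φ x * c.w (c.T (fun y => F y ^ 2 / 2) x) (c.Om x))
        + K ^ 2 * (φ x * c.w (c.T (fun y => A y ^ 2 / 2) x) (c.Om x))
        + K ^ 4 * (φ x * c.w (c.Om x) (c.Om x))) := by
    refine int_mono hD (c.continuous_w (c.continuous_al hgF hgA) (c.continuous_al hgF hgA))
      (continuous_const.mul (((c1.add (continuous_const.mul c2)).add
        (continuous_const.mul c3)).add (continuous_const.mul c4))) fun x hx => ?_
    obtain ⟨f0, fK, a0, aK, pF, pA⟩ := hyp x hx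
    obtain ⟨P, hPp, eP⟩ := phi_split hP c hF f0 fK pF
    obtain ⟨Q, hQp, eQ⟩ := phi_split hP c hAs a0 aK pA
    have e : φ x * c.w (c.T (fun y => F y ^ 2 / 2) x) (c.T (fun y => A y ^ 2 / 2) x)
        + K ^ 2 * (φ x * c.w (c.T (fun y => F y ^ 2 / 2) x) (c.Om x))
        + K ^ 2 * (φ x * c.w (c.T (fun y => A y ^ 2 / 2) x) (c.Om x))
        + K ^ 4 * (φ x * c.w (c.Om x) (c.Om x)) =
        φ x * c.w (c.T (fun y => F y ^ 2 / 2) x + K ^ 2 • c.Om x)
          (c.T (fun y => A y ^ 2 / 2) x + K ^ 2 • c.Om x) := by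
      simp only [c.w_add_left, c.w_add_right, c.w_smul_left, c.w_smul_right,
        c.w_comm (c.Om x) (c.T _ x)]
      ring
    rw [e, eP, eQ, c.w_al_al, c.w_add_left, c.w_add_right, c.w_add_right]
    have n1 := c.w_pos hA (c.s_pos x (grad F x)) (c.s_pos x (grad A x))
    have n2 := c.w_pos hA (c.s_pos x (grad F x)) hQp
    have n3 := c.w_pos hA hPp (c.s_pos x (grad A x))
    have n4 := c.w_pos hA hPp hQp
    by_cases hx1 : x ∈ closedBall p R₁
    · rw [hφin x hx1]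
      linarith
    · have hg0 : grad F x = 0 := grad_zero_off isClosed_closedBall
        (fun y hy => hF0 y fun h => hy (ball_subset_closedBall h)) hx1
      have z : c.w (c.s x (grad F x) (grad F x)) (c.s x (grad A x) (grad A x)) = 0 := by
        rw [hg0]
        simp
      rw [z]
      have := mul_nonneg (hφ1 x).1 (add_nonneg (add_nonneg (le_refl 0) n2) (add_nonneg n3 n4))
      linarith
  replace step1 := step1.trans (int4 hD c1 c2 c3 c4 (K ^ 2) (K ^ 4)).le
  simp only [Pi.mul_apply] at step1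
  have t1 : ∫ x in D, φ x * c.w (c.T (fun y => F y ^ 2 / 2) x) (c.T (fun y => A y ^ 2 / 2) x) ≤
      C1 * K ^ 2 * (a + b) := by
    have e := hIA.ephi c D hD φ _ _ hφ hqF hqA hφ0
    unfold Ctx.N at e
    rw [e, ha, hb, ← int_add hD (by fun_prop) (by fun_prop), ← integral_const_mul]
    refine int_mono hD (c.continuous_Eden hφ (continuous_grad hqF) (continuous_grad hqA))
      (by fun_prop) fun x hx => ?_
    refine ((le_abs_self _).trans (h1 x hx _ _)).trans ?_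
    obtain ⟨f0, fK, a0, aK, -, -⟩ := hyp x hx
    rw [grad_half_sq hF, grad_half_sq hAs, norm_smul, norm_smul, Real.norm_eq_abs,
      Real.norm_eq_abs, abs_of_nonneg f0, abs_of_nonneg a0, mul_assoc C1]
    refine mul_le_mul_of_nonneg_left ?_ hC1
    have u1 : F x * ‖grad F x‖ ≤ K * ‖grad F x‖ := mul_le_mul_of_nonneg_right fK (norm_nonneg _)
    have u2 : A x * ‖grad A x‖ ≤ K * ‖grad A x‖ := mul_le_mul_of_nonneg_right aK (norm_nonneg _)
    have u3 : F x * ‖grad F x‖ * (A x * ‖grad A x‖) ≤ K * ‖grad F x‖ * (K * ‖grad A x‖) :=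
      mul_le_mul u1 u2 (by positivity) (by positivity)
    have u4 : ‖grad F x‖ * ‖grad A x‖ ≤ ‖grad F x‖ ^ 2 + ‖grad A x‖ ^ 2 := by
      nlinarith [sq_nonneg (‖grad F x‖ - ‖grad A x‖), norm_nonneg (grad F x),
        norm_nonneg (grad A x)]
    have u5 : K ^ 2 * (‖grad F x‖ * ‖grad A x‖) ≤ K ^ 2 * (‖grad F x‖ ^ 2 + ‖grad A x‖ ^ 2) :=
      mul_le_mul_of_nonneg_left u4 (sq_nonneg K)
    nlinarith
  have t2 := (h3 _ hqF).trans (mul_le_mul_of_nonneg_left
    (grad_l1 hD hF (fun x hx => ⟨(hyp x hx).1, (hyp x hx).2.1⟩) hK0) hC3)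
  have t3 := (h3 _ hqA).trans (mul_le_mul_of_nonneg_left
    (grad_l1 hD hAs (fun x hx => ⟨(hyp x hx).2.2.1, (hyp x hx).2.2.2.1⟩) hK0) hC3)
  rw [← ha] at t2
  rw [← hb] at t3
  have t2' := mul_le_mul_of_nonneg_left t2 (sq_nonneg K)
  have t3' := mul_le_mul_of_nonneg_left t3 (sq_nonneg K)
  rw [← hW] at step1
  set M : ℝ := K ^ 2 * C3 * K with hM
  have hM0 : 0 ≤ M := by positivity
  have e2 : K ^ 2 * (C3 * (K * (volume.real D + a))) = M * (volume.real D + a) := by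
    rw [hM]; ring
  have e3 : K ^ 2 * (C3 * (K * (volume.real D + b))) = M * (volume.real D + b) := by
    rw [hM]; ring
  rw [e2] at t2'
  rw [e3] at t3'
  have g1 : C1 * K ^ 2 * (a + b) ≤ C1 * K ^ 2 * (1 + a + b) :=
    mul_le_mul_of_nonneg_left (by linarith) (by positivity)
  have g2 : M * (volume.real D + a) + M * (volume.real D + b) ≤
      2 * M * (volume.real D + 1) * (1 + a + b) := by
    have := mul_nonneg hM0 (mul_nonneg hv0 (add_nonneg ha0 hb0))
    have := mul_nonneg hM0 (add_nonneg ha0 hb0)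
    nlinarith
  have g3 : K ^ 4 * W ≤ K ^ 4 * W * (1 + a + b) :=
    le_mul_of_one_le_right (by positivity) (by linarith)
  nlinarith

end Pool.Agent.MP_13e7a1_an.H54
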